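import Pool.Agent.W5h28.BL.Main
import Pool.Agent.Z125.UN.Sym

/-!
# Systems of bilinear equations and the dimension
-/

set_option autoImplicit false

open CategoryTheory AlgebraicGeometry MvPolynomial Pool.Agent.Y116.UV Pool.Agent.Z125.UN Pool.Agent.W5h93.QD

namespace Pool.Agent.W5h28.BL

variable {k : Type} [Field k] {sep : Prop} {P : Sch k → Prop}

/-- the coefficients of a bilinear form -/
def hom (a b : ℕ) (T : Fin a → Fin b → k) (o : Option (Fin a)) (p : Option (Fin b)) : k :=
  o.elim 0 fun i => p.elim 0 fun j => T i j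

lemma bq_hom (a b : ℕ) (T : Fin a → Fin b → k) : bq (hom a b T) = bil (Fin a) (Fin b) T := by
  rw [bq, bil_apply, Fintype.sum_option]
  have h0 : ∑ p : Option (Fin b), (C (hom a b T none p) : MvPolynomial (Fin a ⊕ Fin b) k) *
      ((none : Option (Fin a)).elim 1 fun v => X (Sum.inl v)) * (p.elim 1 fun w => X (Sum.inr w)) = 0 := by
    refine Finset.sum_eq_zero fun p _ => ?_
    have h1 : hom a b T none p = 0 := rfl
    rw [h1, C_0, zero_mul, zero_mul]
  rw [h0, zero_add]
  refine Finset.sum_congr rfl fun i _ => ?_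
  rw [Fintype.sum_option]
  have h1 : hom a b T (some i) none = 0 := rfl
  rw [h1, C_0, zero_mul, zero_mul, zero_add]
  rfl

/-- from systems of `n + 2` bilinear equations to dimension `n` -/
theorem dim_of_bil (hP : Bnd sep P) [PerfectField k] {n : ℕ}
    (h : ∀ (N M : ℕ) (B : Fin (n + 2) → Option (Fin N) → Option (Fin M) → k),
      P (aff k (Sys k (Fin N ⊕ Fin M) (Set.range fun i => bq (B i))))) (X : Sch k) (hX : FT sep X)
    (hn : topologicalKrullDim X.left ≤ n) : P X := by
  refine (dim_tri hP n).mpr (fun a b T => ?_) X hX hn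
  let T' : Fin (n + 2) → Fin a → Fin b → k := fun l i j => T i j l
  have e1 := swapR T
  have e2 := swapL fun (i : Fin a) (l : Fin (n + 2)) (j : Fin b) => T i j l
  refine iso_alg hP.toUni (e1.trans (e2.trans (hypEquiv T'))).symm ?_
  have hA : P (aff k (MvPolynomial (Fin a ⊕ Fin b) k)) :=
    iso_alg hP.toUni (renameEquiv k finSumFinEquiv.symm) (hP.space _)
  refine to_jou hP _ hA ?_
  change P (aff k (Sys k (Fin a ⊕ Fin b) (Set.range fun l => bil (Fin a) (Fin b) (T' l))))
  have h1 := h a b fun l => hom a b (T' l)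
  have e : (fun i : Fin (n + 2) => bq ((fun l => hom a b (T' l)) i)) =
      fun l => bil (Fin a) (Fin b) (T' l) := funext fun l => bq_hom a b (T' l)
  rw [e] at h1
  exact h1

end Pool.Agent.W5h28.BL
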