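import Pool.Agent.W5h28.BL.Lin

/-!
# A linear equation with coefficients in a ring
-/

set_option autoImplicit false

open CategoryTheory AlgebraicGeometry MvPolynomial Pool.Agent.Y116.UV Pool.Agent.Z125.UN Pool.Agent.W5h93.QD

namespace Pool.Agent.W5h28.BL

section

variable {R : Type} [CommRing R] {sep : Prop} {P : Sch R → Prop} (hP : Bnd sep P)

include hP

lemma ring_closed {A : Type} [CommRing A] [Algebra R A] [Algebra.FiniteType R A] (w : A)
    (h1 : P (aff R A)) (h2 : P (aff R (Localization.Away w))) : P (aff R (A ⧸ Ideal.span {w})) :=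
  hP.closed _ _ (ft_aff sep) (triple_away w) h1 h2

/-- from the closed subscheme `f = 0` to the affine bundle over its complement -/
lemma to_jou' {E : Type} [CommRing E] [Algebra R E] [Algebra.FiniteType R E] {κ : Type} [Fintype κ]
    (f : κ → E) (hE : P (aff R E)) (hf : P (aff R (E ⧸ Ideal.span (Set.range f)))) :
    P (aff R (Sys E κ (JG f))) := by
  refine jou_equiv hP (Fintype.equivFin κ) f ?_
  refine to_jou hP (fun l => f ((Fintype.equivFin κ).symm l)) hE ?_
  have h : Set.range (fun l => f ((Fintype.equivFin κ).symm l)) = Set.range f :=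
    (Fintype.equivFin κ).symm.surjective.range_comp f
  rw [h]
  exact hf

/-- from the affine bundle over the complement to the closed subscheme `f = 0` -/
lemma of_jou' {E : Type} [CommRing E] [Algebra R E] [Algebra.FiniteType R E] {κ : Type} [Fintype κ]
    (f : κ → E) (hE : P (aff R E)) (hJ : P (aff R (Sys E κ (JG f)))) :
    P (aff R (E ⧸ Ideal.span (Set.range f))) := by
  have h1 : P (aff R (Sys E (Fin (Fintype.card κ)) (JG fun l => f ((Fintype.equivFin κ).symm l)))) := by
    refine jou_equiv hP (Fintype.equivFin κ).symm _ ?_
    have h : ∀ g : κ → E, g = f → P (aff R (Sys E κ (JG g))) := by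
      rintro _ rfl
      exact hJ
    refine h _ (funext fun l => ?_)
    rw [Equiv.symm_symm, Equiv.symm_apply_apply]
  have h2 := of_jou hP.toUni (fun l => f ((Fintype.equivFin κ).symm l)) hE h1
  have h : Set.range (fun l => f ((Fintype.equivFin κ).symm l)) = Set.range f :=
    (Fintype.equivFin κ).symm.surjective.range_comp f
  rw [h] at h2
  exact h2

/-- A linear equation with coefficients in a ring `E`, from the loci where the coefficients vanish. -/
lemma ff_of {E : Type} [CommRing E] [Algebra R E] [Algebra.FiniteType R E] {κ : Type} [Fintype κ]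
    (f : Option κ → E) (hE : P (aff R E))
    (h1 : P (aff R (E ⧸ Ideal.span (Set.range fun l => f (some l)))))
    (h2 : P (aff R (E ⧸ Ideal.span (Set.range f)))) : P (aff R (Sys E κ {ff f})) := by
  have hf1 : Algebra.FiniteType R (MvPolynomial κ E) :=
    Algebra.FiniteType.trans (S := E) inferInstance inferInstance
  have hf2 : Algebra.FiniteType R (MvPolynomial (Option κ) E) :=
    Algebra.FiniteType.trans (S := E) inferInstance inferInstance
  have hJ : P (aff R (Sys E (Option κ) (JG f))) := to_jou' hP f hE h2
  have hJ1 : P (aff R (Sys E κ (JG fun l => f (some l)))) := to_jou' hP _ hE h1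
  have hc : P (aff R (Sys E (Option κ) (JG f) ⧸ Ideal.span {xS (JG f) none})) := by
    refine quot_mk hP (Ideal.span (JG f)) (X none) ?_
    rw [← Ideal.span_union]
    change P (aff R (Sys E (Option κ) (JG f ∪ {X none})))
    have hn : X none - rename some (0 : MvPolynomial κ E) ∈
        Ideal.span (JG f ∪ {(X none : MvPolynomial (Option κ) E)}) := by
      rw [map_zero, sub_zero]
      exact Ideal.subset_span (Or.inr rfl)
    refine iso_alg hP.toUni (elimE (JG f ∪ {X none}) 0 hn).symm ?_
    refine p_eq hP ?_ hJ1
    rw [Set.image_union, Set.image_singleton, JG, JG, Set.image_singleton, map_sub, map_one,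
      map_sum, Fintype.sum_option, aeval_X]
    have h3 : aeval (R := E) (fun o : Option κ => o.elim (0 : MvPolynomial κ E) X)
        (C (f none) * X none) = 0 := by
      rw [map_mul, aeval_X]
      exact mul_zero _
    have h4 : ∀ l : κ, aeval (R := E) (fun o : Option κ => o.elim (0 : MvPolynomial κ E) X)
        (C (f (some l)) * X (some l)) = C (f (some l)) * X l := by
      intro l
      rw [map_mul, aeval_X, aeval_C]
      rfl
    rw [h3, zero_add, Finset.sum_congr rfl fun l _ => h4 l, Ideal.span_union]
    change _ = _ ⊔ Ideal.span {(0 : MvPolynomial κ E)}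
    rw [Ideal.span_singleton_zero, sup_bot_eq]
  have ho := ring_open hP (xS (JG f) none) hc hJ
  have := ft_away (R := R) (xS (JG f) none)
  exact ring_closed hP (ff f) (p_poly hP κ hE) (iso_alg hP.toUni (jouE R f) ho)

end

end Pool.Agent.W5h28.BL
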