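import Pool.Agent.W5h93.QD.Jst
import Pool.Agent.Z125.UN.Dim2

/-!
# Systems of linear equations over a class of rings
-/

set_option autoImplicit false

open CategoryTheory AlgebraicGeometry MvPolynomial Pool.Agent.Y116.UV Pool.Agent.Z125.UN Pool.Agent.W5h93.QD

namespace Pool.Agent.W5h28.BL

/-- A class of algebras which is closed under quotients and localizations. -/
structure Cls {R : Type} [CommRing R] (K : ∀ (A : Type) [CommRing A] [Algebra R A], Prop) : Prop where
  quot : ∀ (A : Type) [CommRing A] [Algebra R A] [Algebra.FiniteType R A], K A → ∀ I : Ideal A, K (A ⧸ I)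
  away : ∀ (A : Type) [CommRing A] [Algebra R A] [Algebra.FiniteType R A], K A → ∀ e : A,
    K (Localization.Away e)

section

variable {R : Type} [CommRing R] {sep : Prop} {P : Sch R → Prop} (hP : Bnd sep P)
  {K : ∀ (A : Type) [CommRing A] [Algebra R A], Prop}

/-- all systems of linear equations in `N` variables over the rings in the class -/
def TLin (K : ∀ (A : Type) [CommRing A] [Algebra R A], Prop) (P : Sch R → Prop) (N : ℕ) : Prop :=
  ∀ (A : Type) [CommRing A] [Algebra R A] [Algebra.FiniteType R A], K A →
    ∀ (V : Type) [Fintype V], Fintype.card V = N → ∀ (κ : Type) [Finite κ] (b : κ → MvPolynomial V A),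
      (∀ j, (b j).totalDegree ≤ 1) → P (aff R (Sys A V (Set.range b)))

include hP

/-- elimination of a variable -/
lemma lin_step {N : ℕ} (h : TLin K P N) (A : Type) [CommRing A] [Algebra R A]
    [Algebra.FiniteType R A] (hA : K A) (W : Type) [Fintype W] (hW : Fintype.card W = N)
    (κ : Type) [Finite κ] (b : κ → MvPolynomial (Option W) A)
    (hb : ∀ j, (b j).totalDegree ≤ 1) (j : κ) (i : A)
    (hi : i * coeff (Finsupp.single none 1) (b j) = 1) :
    P (aff R (Sys A (Option W) (Set.range b))) := by
  obtain ⟨b0, hb0, he⟩ := deg_one (hb j)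
  set t : MvPolynomial W A := -(C i * b0) with ht
  have htd : t.totalDegree ≤ 1 := by
    rw [ht, totalDegree_neg]
    refine (totalDegree_mul _ _).trans ?_
    rw [totalDegree_C, zero_add]
    exact hb0
  have hmem : X none - rename some t ∈ Ideal.span (Set.range b) := by
    have h1 : X none - rename some t = C i * b j := by
      rw [he, ht, map_neg, map_mul, rename_C, mul_add, ← mul_assoc, ← C_mul, hi, C_1]
      ring
    rw [h1]
    exact Ideal.mul_mem_left _ _ (Ideal.subset_span ⟨j, rfl⟩)
  have hw : ∀ o : Option W, (o.elim t X : MvPolynomial W A).totalDegree ≤ 1 := by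
    intro o
    rcases o with _ | w
    · exact htd
    · exact deg_X w
  refine iso_alg hP.toUni (elimE (R := R) _ t hmem).symm ?_
  have e1 : subst t '' (Set.range b) = Set.range fun j => subst t (b j) := by
    rw [← Set.range_comp]
    rfl
  rw [e1]
  exact h A hA W hW κ _ (fun j => (deg_aeval _ hw _).trans (hb j))

/-- linear equations -/
lemma lin_of {N : ℕ} (hL : ∀ M, N = M + 1 → TLin K P M) (hB : Cls K)
    (hK : ∀ (A : Type) [CommRing A] [Algebra R A] [Algebra.FiniteType R A], K A → P (aff R A)) :
    TLin K P N := by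
  classical
  intro A _ _ _ hA V _ hV κ _ b hb
  -- induction on the number of linear terms
  suffices H : ∀ (m : ℕ) (A : Type) [CommRing A] [Algebra R A] [Algebra.FiniteType R A], K A →
      ∀ (b : κ → MvPolynomial V A), (∀ j, (b j).totalDegree ≤ 1) →
      Set.ncard {p : κ × V | coeff (Finsupp.single p.2 1) (b p.1) ≠ 0} ≤ m →
      P (aff R (Sys A V (Set.range b))) from H _ A hA b hb le_rfl
  intro m
  induction m with
  | zero =>
    intro A _ _ _ hA b hb hm
    have h0 : ∀ j, b j = C (coeff 0 (b j)) := by
      intro j
      apply deg_const (hb j)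
      intro v
      by_contra hc
      have h1 : {p : κ × V | coeff (Finsupp.single p.2 1) (b p.1) ≠ 0} = ∅ :=
        (Set.ncard_eq_zero (Set.toFinite _)).mp (by omega)
      have h2 : (j, v) ∈ {p : κ × V | coeff (Finsupp.single p.2 1) (b p.1) ≠ 0} := hc
      rw [h1] at h2
      exact h2
    let I : Ideal A := Ideal.span (Set.range fun j => coeff 0 (b j))
    have := ft_quot (R := R) I
    have h1 : P (aff R (Sys A V (C '' (I : Set A)))) := p_const hP I (hK _ (hB.quot A hA I))
    refine p_eq hP ?_ h1
    apply le_antisymm
    · rw [Ideal.span_le]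
      rintro f ⟨a, ha, rfl⟩
      change C a ∈ Ideal.span (Set.range b)
      have h3 : I ≤ (Ideal.span (Set.range b)).comap C := by
        rw [Ideal.span_le]
        rintro _ ⟨j, rfl⟩
        change C (coeff 0 (b j)) ∈ Ideal.span (Set.range b)
        rw [← h0 j]
        exact Ideal.subset_span ⟨j, rfl⟩
      exact h3 ha
    · rw [Ideal.span_le]
      rintro f ⟨j, rfl⟩
      rw [h0 j]
      exact Ideal.subset_span ⟨_, Ideal.subset_span ⟨j, rfl⟩, rfl⟩
  | succ m ih =>
    intro A _ _ _ hA b hb hm
    by_cases hz : ∃ p : κ × V, coeff (Finsupp.single p.2 1) (b p.1) ≠ 0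
    swap
    · apply ih A hA b hb
      have h1 : {p : κ × V | coeff (Finsupp.single p.2 1) (b p.1) ≠ 0} = ∅ := by
        push Not at hz
        ext p
        simp only [Set.mem_ofPred_eq, Set.mem_empty_iff_false, iff_false, not_not]
        exact hz p
      rw [h1, Set.ncard_empty]
      exact Nat.zero_le _
    obtain ⟨⟨j, v⟩, he⟩ := hz
    set e := coeff (Finsupp.single v 1) (b j) with hedef
    have hmap : ∀ {B : Type} [CommRing B] (ι : A →+* B), mapG ι (Set.range b) =
        Set.range fun j => MvPolynomial.map ι (b j) := by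
      intro B _ ι
      rw [mapG, ← Set.range_comp]
      rfl
    apply p_split hP _ e
    · have := ft_quot (R := R) (Ideal.span {e})
      rw [hmap]
      apply ih _ (hB.quot A hA _) _ (fun j => (deg_map _ _).trans (hb j))
      have h1 : {p : κ × V | coeff (Finsupp.single p.2 1) (MvPolynomial.map
          (Ideal.Quotient.mkₐ R (Ideal.span {e}) : A →+* A ⧸ Ideal.span {e}) (b p.1)) ≠ 0} ⊂
          {p : κ × V | coeff (Finsupp.single p.2 1) (b p.1) ≠ 0} := by
        refine ⟨?_, ?_⟩
        · intro p hp hc
          apply hp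
          rw [coeff_map, hc, map_zero]
        · intro hc
          have h2 : (j, v) ∈ {p : κ × V | coeff (Finsupp.single p.2 1) (b p.1) ≠ 0} := he
          have h3 := hc h2
          apply h3
          change coeff (Finsupp.single v 1) (MvPolynomial.map _ (b j)) = 0
          rw [coeff_map, ← hedef]
          exact Ideal.Quotient.eq_zero_iff_mem.mpr (Ideal.mem_span_singleton_self e)
      have h2 := Set.ncard_lt_ncard h1 (Set.toFinite _)
      omega
    · have := ft_away (R := R) e
      rw [hmap]
      set B := Localization.Away e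
      set ι : A →+* B := (locA (R := R) e : A →+* B) with hι
      obtain ⟨u, hu⟩ := IsLocalization.Away.algebraMap_isUnit (S := Localization.Away e) e
      have h4 : (↑u⁻¹ : B) * ι e = 1 := by
        change (↑u⁻¹ : B) * algebraMap A (Localization.Away e) e = 1
        rw [← hu, Units.inv_mul]
      let W := {w : V // w ≠ v}
      have hW : Fintype.card W + 1 = Fintype.card V := by
        have h5 := Fintype.card_congr (Equiv.optionSubtypeNe v)
        rw [Fintype.card_option] at h5
        exact h5
      let σ : V ≃ Option W := (Equiv.optionSubtypeNe v).symm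
      have hσ : σ v = none := by
        rw [Equiv.symm_apply_eq]
        rfl
      apply p_re hP (renameEquiv B σ)
      have e1 : renameEquiv B σ '' (Set.range fun j => MvPolynomial.map ι (b j)) =
          Set.range fun j => rename σ (MvPolynomial.map ι (b j)) := by
        rw [← Set.range_comp]
        rfl
      rw [e1]
      apply lin_step hP (hL (Fintype.card W) (by omega)) B (hB.away A hA _) W rfl κ _
        (fun j => (totalDegree_rename_le _ _).trans ((deg_map _ _).trans (hb j))) j (↑u⁻¹)
      have h6 : coeff (Finsupp.single none 1) (rename σ (MvPolynomial.map ι (b j))) = ι e := by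
        have h7 : (Finsupp.single (none : Option W) 1 : Option W →₀ ℕ) =
            Finsupp.mapDomain σ (Finsupp.single v 1) := by
          rw [Finsupp.mapDomain_single, hσ]
        rw [h7, coeff_rename_mapDomain _ σ.injective, coeff_map]
      rw [h6]
      exact h4

/-- **Systems of linear equations.** -/
theorem lin_all (hB : Cls K)
    (hK : ∀ (A : Type) [CommRing A] [Algebra R A] [Algebra.FiniteType R A], K A → P (aff R A)) :
    ∀ N, TLin K P N
  | 0 => lin_of hP (fun M hM => absurd hM (by omega)) hB hK
  | N + 1 => lin_of hP (fun M hM => by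
        obtain rfl : N = M := by omega
        exact lin_all hB hK N) hB hK

end

section cls

variable {R : Type} [CommRing R] {sep : Prop} {P : Sch R → Prop}

lemma dim_quot_le {A : Type} [CommRing A] [IsDomain A] {n : ℕ} (hA : ringKrullDim A ≤ ((n + 1 : ℕ) : WithBot ℕ∞))
    {I : Ideal A} (hI : I ≠ ⊥) : ringKrullDim (A ⧸ I) ≤ n := by
  obtain ⟨r, hr, hr0⟩ := (Submodule.ne_bot_iff I).1 hI
  have h1 : ringKrullDim (A ⧸ Ideal.span {r}) + 1 ≤ ringKrullDim A :=
    ringKrullDim_quotient_succ_le_of_nonZeroDivisor (mem_nonZeroDivisors_of_ne_zero hr0)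
  have h2 : ringKrullDim (A ⧸ I) ≤ ringKrullDim (A ⧸ Ideal.span {r}) :=
    ringKrullDim_le_of_surjective (Ideal.Quotient.factor (Ideal.span_le.2 (Set.singleton_subset_iff.2 hr)))
      (Ideal.Quotient.factor_surjective _)
  have h3 : ringKrullDim (A ⧸ Ideal.span {r}) + 1 ≤ (n : WithBot ℕ∞) + 1 := by
    refine h1.trans (hA.trans ?_)
    push_cast
    exact le_rfl
  refine h2.trans ?_
  exact ENat.WithBot.add_le_add_one_right_iff.1 h3

/-- the class of the algebras of dimension at most `n`, and of the domains of dimension at most `n + 1` with the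
property -/
def KK (P : Sch R → Prop) (n : ℕ) (A : Type) [CommRing A] [Algebra R A] : Prop :=
  ringKrullDim A ≤ n ∨ (IsDomain A ∧ ringKrullDim A ≤ ((n + 1 : ℕ) : WithBot ℕ∞) ∧ P (aff R A))

lemma kk_prop {n : ℕ} (h : ∀ (A : Type) [CommRing A] [Algebra R A] [Algebra.FiniteType R A],
    ringKrullDim A ≤ n → P (aff R A)) (A : Type) [CommRing A] [Algebra R A] [Algebra.FiniteType R A]
    (hA : KK P n A) : P (aff R A) := by
  rcases hA with hA | hA
  · exact h A hA
  · exact hA.2.2

lemma kk_cls (hP : Bnd sep P) {n : ℕ} (h : ∀ (A : Type) [CommRing A] [Algebra R A] [Algebra.FiniteType R A],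
    ringKrullDim A ≤ n → P (aff R A)) : Cls (R := R) (fun A _ _ => KK P n A) where
  quot A _ _ _ hA I := by
    rcases hA with hA | ⟨hd, hA, hPA⟩
    · exact Or.inl ((ringKrullDim_quotient_le I).trans hA)
    · by_cases hI : I = ⊥
      · subst hI
        have e : (A ⧸ (⊥ : Ideal A)) ≃ₐ[R] A := AlgEquiv.quotientBot R A
        have hd2 : IsDomain (A ⧸ (⊥ : Ideal A)) := e.toRingEquiv.isDomain_iff.2 hd
        refine Or.inr ⟨hd2, (ringKrullDim_quotient_le _).trans hA, iso_alg hP.toUni e.symm hPA⟩
      · exact Or.inl (dim_quot_le hA hI)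
  away A _ _ _ hA e := by
    rcases hA with hA | ⟨hd, hA, hPA⟩
    · exact Or.inl ((dim_away e).trans hA)
    · by_cases he : e = 0
      · left
        have hs : Subsingleton (Localization.Away e) :=
          IsLocalization.subsingleton (M := Submonoid.powers e) (by rw [he]; exact ⟨1, by simp⟩)
        rw [ringKrullDim_eq_bot_of_subsingleton]
        exact bot_le
      · right
        have hs : Submonoid.powers e ≤ nonZeroDivisors A := powers_le_nonZeroDivisors_of_noZeroDivisors he
        refine ⟨IsLocalization.isDomain_localization hs, (dim_away e).trans hA, ?_⟩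
        refine ring_open hP e ?_ hPA
        have := ft_quot (R := R) (Ideal.span {e})
        exact h _ (dim_quot_le hA (by rwa [Ne, Ideal.span_singleton_eq_bot]))

end cls

end Pool.Agent.W5h28.BL
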