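import Pool.Agent.W5h28.BL.Swap

/-!
# Systems of bilinear equations
-/

set_option autoImplicit false

open CategoryTheory AlgebraicGeometry MvPolynomial Pool.Agent.Y116.UV Pool.Agent.Z125.UN Pool.Agent.W5h93.QD

namespace Pool.Agent.W5h28.BL

section deg

variable {A : Type} [CommRing A]

lemma deg_elim {W σ : Type} (i : W → σ) (p : Option W) :
    (p.elim 1 fun w => X (i w) : MvPolynomial σ A).totalDegree ≤ 1 := by
  rcases p with _ | w
  · change (1 : MvPolynomial σ A).totalDegree ≤ 1
    rw [totalDegree_one]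
    exact Nat.zero_le _
  · exact deg_X _

lemma deg_lp {W σ : Type} [Fintype W] (i : W → σ) (c : Option W → A) : (lp i c).totalDegree ≤ 1 := by
  rw [lp]
  refine (totalDegree_finsetSum _ _).trans (Finset.sup_le fun p _ => ?_)
  refine (totalDegree_mul _ _).trans ?_
  rw [totalDegree_C, zero_add]
  exact deg_elim i p

lemma deg_pG {V W J : Type} [Fintype W] [Fintype J] (b : J → Option V → A) (B : Option V → Option W → A)
    (o : Option V) : (pG b B o).totalDegree ≤ 1 := by
  rw [pG]
  refine (totalDegree_add _ _).trans (max_le (deg_lp _ _) ?_)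
  refine (totalDegree_finsetSum _ _).trans (Finset.sup_le fun p _ => ?_)
  refine (totalDegree_mul _ _).trans ?_
  rw [totalDegree_C, zero_add]
  exact deg_X _

lemma map_lp {A' W σ : Type} [CommRing A'] [Fintype W] (φ : A →+* A') (i : W → σ) (c : Option W → A) :
    MvPolynomial.map φ (lp i c) = lp i fun p => φ (c p) := by
  rw [lp, lp, map_sum]
  refine Finset.sum_congr rfl fun p _ => ?_
  rw [map_mul, map_C, map_elim]
  simp only [map_X]

lemma map_bq {A' V W : Type} [CommRing A'] [Fintype V] [Fintype W] (φ : A →+* A')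
    (B : Option V → Option W → A) : MvPolynomial.map φ (bq B) = bq fun o p => φ (B o p) := by
  rw [bq, bq, map_sum]
  refine Finset.sum_congr rfl fun o _ => ?_
  rw [map_sum]
  refine Finset.sum_congr rfl fun p _ => ?_
  rw [map_mul, map_mul, map_C, map_elim, map_elim]
  simp only [map_X]

lemma bq_add {V W : Type} [Fintype V] [Fintype W] (B B' : Option V → Option W → A) :
    bq B + bq B' = bq fun o p => B o p + B' o p := by
  rw [bq, bq, bq, ← Finset.sum_add_distrib]
  refine Finset.sum_congr rfl fun o _ => ?_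
  rw [← Finset.sum_add_distrib]
  refine Finset.sum_congr rfl fun p _ => ?_
  rw [C_add]
  ring

lemma bq_smul {V W : Type} [Fintype V] [Fintype W] (a : A) (B : Option V → Option W → A) :
    C a * bq B = bq fun o p => a * B o p := by
  rw [bq, bq, Finset.mul_sum]
  refine Finset.sum_congr rfl fun o _ => ?_
  rw [Finset.mul_sum]
  refine Finset.sum_congr rfl fun p _ => ?_
  rw [C_mul]
  ring

lemma bq_zero {V W : Type} [Fintype V] [Fintype W] :
    (0 : MvPolynomial (V ⊕ W) A) = bq fun _ _ => 0 := by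
  rw [bq]
  symm
  refine Finset.sum_eq_zero fun o _ => Finset.sum_eq_zero fun p _ => ?_
  rw [C_0, zero_mul, zero_mul]

lemma bq_sum {V W ι : Type} [Fintype V] [Fintype W] (s : Finset ι) (B : ι → Option V → Option W → A) :
    ∑ l ∈ s, bq (B l) = bq fun o p => ∑ l ∈ s, B l o p := by
  classical
  induction s using Finset.induction_on with
  | empty => simp only [Finset.sum_empty]; exact bq_zero
  | insert a s ha ih => simp only [Finset.sum_insert ha]; rw [ih, bq_add]

end deg

section

variable {R : Type} [CommRing R] {sep : Prop} {P : Sch R → Prop} (hP : Bnd sep P)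
  {K : ∀ (A : Type) [CommRing A] [Algebra R A], Prop}

/-- more equations, as a quotient -/
lemma quot_sys {A V κ : Type} [CommRing A] [Algebra R A] (G : Set (MvPolynomial V A))
    (p : κ → MvPolynomial V A) : Nonempty ((Sys A V G ⧸ Ideal.span (Set.range fun o =>
      (Ideal.Quotient.mk (Ideal.span G) (p o) : Sys A V G))) ≃ₐ[R] Sys A V (G ∪ Set.range p)) := by
  have h4 : Ideal.span (Set.range fun o => (Ideal.Quotient.mk (Ideal.span G) (p o) : Sys A V G)) =
      Ideal.map (Ideal.Quotient.mkₐ R (Ideal.span G)) (Ideal.span (Set.range p)) := by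
    rw [Ideal.map_span, ← Set.range_comp]
    rfl
  have h5 : Ideal.span (G ∪ Set.range p) = Ideal.span G ⊔ Ideal.span (Set.range p) :=
    Ideal.span_union _ _
  exact ⟨((Ideal.quotientEquivAlgOfEq R h4).trans
    (DoubleQuot.quotQuotEquivQuotSupₐ R (Ideal.span G) (Ideal.span (Set.range p)))).trans
    (Ideal.quotientEquivAlgOfEq R h5.symm)⟩

include hP

/-- a union of two families of linear equations -/
lemma lin_union (hB : Cls K)
    (hK : ∀ (A : Type) [CommRing A] [Algebra R A] [Algebra.FiniteType R A], K A → P (aff R A))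
    (A : Type) [CommRing A] [Algebra R A] [Algebra.FiniteType R A] (hA : K A) (V : Type) [Fintype V]
    {κ κ' : Type} [Finite κ] [Finite κ'] (b : κ → MvPolynomial V A) (b' : κ' → MvPolynomial V A)
    (hb : ∀ j, (b j).totalDegree ≤ 1) (hb' : ∀ j, (b' j).totalDegree ≤ 1) :
    P (aff R (Sys A V (Set.range b ∪ Set.range b'))) := by
  have h := lin_all hP hB hK (Fintype.card V) A hA V rfl (κ ⊕ κ') (Sum.elim b b') (by
    rintro (j | j)
    · exact hb j
    · exact hb' j)
  rw [Set.Sum.elim_range] at h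
  exact h

/-- **One bilinear equation**, any number of linear equations in each of the two blocks. -/
theorem bil_zero (hB : Cls K)
    (hK : ∀ (A : Type) [CommRing A] [Algebra R A] [Algebra.FiniteType R A], K A → P (aff R A))
    (A : Type) [CommRing A] [Algebra R A] [Algebra.FiniteType R A] (hA : K A) {V W J L : Type}
    [Fintype V] [Fintype W] [Fintype J] [Finite L] (b : J → Option V → A) (c : L → Option W → A)
    (B : Option V → Option W → A) :
    P (aff R (Sys A (V ⊕ W) (G0 V c ∪ Set.range (pF b B)))) := by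
  have hE0 : P (aff R (Sys A (V ⊕ W) (G0 V c))) :=
    lin_all hP hB hK _ A hA (V ⊕ W) rfl L _ fun l => deg_lp _ _
  have hE1 : P (aff R (Sys A (W ⊕ J) (G1 J c))) :=
    lin_all hP hB hK _ A hA (W ⊕ J) rfl L _ fun l => deg_lp _ _
  obtain ⟨e⟩ := quot_sys (R := R) (G0 V c) (pF b B)
  refine iso_alg hP.toUni e (of_jou' hP (cF b c B) hE0 ?_)
  refine jou_step hP (cF b c B) hE0 ?_ ?_
  · refine to_jou' hP _ hE0 ?_
    obtain ⟨e1⟩ := quot_sys (R := R) (G0 V c) (fun j => lp Sum.inl (b j))
    refine iso_alg hP.toUni e1.symm ?_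
    exact lin_union hP hB hK A hA (V ⊕ W) _ _ (fun l => deg_lp _ _) (fun j => deg_lp _ _)
  · refine iso_alg hP.toUni (swE R b c B).symm ?_
    refine ff_of hP _ hE1 ?_ ?_
    · obtain ⟨e1⟩ := quot_sys (R := R) (G1 J c) (fun v => pG b B (some v))
      refine iso_alg hP.toUni e1.symm ?_
      exact lin_union hP hB hK A hA (W ⊕ J) _ _ (fun l => deg_lp _ _) (fun j => deg_pG _ _ _)
    · obtain ⟨e1⟩ := quot_sys (R := R) (G1 J c) (pG b B)
      refine iso_alg hP.toUni e1.symm ?_
      exact lin_union hP hB hK A hA (W ⊕ J) _ _ (fun l => deg_lp _ _) (fun j => deg_pG _ _ _)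

/-- **Several bilinear equations**, any number of linear equations in each of the two blocks. -/
theorem bil_all (hB : Cls K)
    (hK : ∀ (A : Type) [CommRing A] [Algebra R A] [Algebra.FiniteType R A], K A → P (aff R A))
    (A : Type) [CommRing A] [Algebra R A] [Algebra.FiniteType R A] (hA : K A) {r : ℕ}
    (hH : ∀ (κ : Type) [Fintype κ], Fintype.card κ ≤ r → K (MvPolynomial κ A)) {V W J L : Type}
    [Fintype V] [Fintype W] [Fintype J] [Finite L] (b : J → Option V → A) (c : L → Option W → A)
    (B : Fin (r + 1) → Option V → Option W → A) :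
    P (aff R (Sys A (V ⊕ W) (((Set.range fun j => lp Sum.inl (b j)) ∪ (Set.range fun l => lp Sum.inr (c l))) ∪
      Set.range fun i => bq (B i)))) := by
  set G : Set (MvPolynomial (V ⊕ W) A) :=
    (Set.range fun j => lp Sum.inl (b j)) ∪ (Set.range fun l => lp Sum.inr (c l)) with hG
  have hE : P (aff R (Sys A (V ⊕ W) G)) :=
    lin_union hP hB hK A hA (V ⊕ W) _ _ (fun l => deg_lp _ _) (fun j => deg_lp _ _)
  obtain ⟨e⟩ := quot_sys (R := R) G (fun i => bq (B i))
  refine iso_alg hP.toUni e (of_jou' hP _ hE ?_)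
  refine jou_all hP hE (fun e => ∃ D : Option V → Option W → A,
    Ideal.Quotient.mk (Ideal.span G) (bq D) = e) (r + 1) ?_ (r + 1) le_rfl (Fin (r + 1))
    (Fintype.card_fin _) _ fun l => ⟨B l, rfl⟩
  intro κ' _ hκ' g hg
  choose D hD using hg
  have hg' : g = cls G (fun o => bq (D o)) := funext fun o => (hD o).symm
  rw [hg']
  have : Algebra.FiniteType R (MvPolynomial κ' A) :=
    Algebra.FiniteType.trans (S := A) inferInstance inferInstance
  refine iso_alg hP.toUni (famE (R := R) G fun o => bq (D o)).symm ?_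
  set ι : A →+* MvPolynomial κ' A := ((cc R A κ' : A →ₐ[R] MvPolynomial κ' A) : A →+* MvPolynomial κ' A) with hι
  have h2 := bil_zero hP hB hK (MvPolynomial κ' A) (hH κ' (by omega)) (fun j p => ι (b j p))
    (fun l p => ι (c l p)) (fun o p => ι (D none o p) + ∑ l, X l * ι (D (some l) o p))
  refine p_eq hP ?_ h2
  congr 1
  have e1 : W5h93.QD.lc (fun o => bq (D o)) R =
      bq fun o p => ι (D none o p) + ∑ l, X l * ι (D (some l) o p) := by
    rw [W5h93.QD.lc, ← bq_add, ← bq_sum, map_bq]
    congr 1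
    refine Finset.sum_congr rfl fun l _ => ?_
    rw [← bq_smul, map_bq]
  have e2 : mapG ι G = (Set.range fun j => lp Sum.inl fun p => ι (b j p)) ∪
      (Set.range fun l => lp Sum.inr fun p => ι (c l p)) := by
    rw [mapG, hG, Set.image_union, ← Set.range_comp, ← Set.range_comp]
    congr 2
    · funext j
      exact map_lp _ _ _
    · funext j
      exact map_lp _ _ _
  rw [G', e1, ← hι, e2]
  ext q
  simp only [Set.mem_union, Set.mem_range, Set.mem_insert_iff]
  constructor
  · rintro (⟨l, rfl⟩ | ⟨_ | j, rfl⟩)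
    · exact Or.inr (Or.inr ⟨l, rfl⟩)
    · exact Or.inl rfl
    · exact Or.inr (Or.inl ⟨j, rfl⟩)
  · rintro (rfl | ⟨j, rfl⟩ | ⟨l, rfl⟩)
    · exact Or.inr ⟨none, rfl⟩
    · exact Or.inr ⟨some j, rfl⟩
    · exact Or.inl ⟨l, rfl⟩

/-- **Bilinear systems from the dimension.** -/
theorem bil_dim [IsNoetherianRing R] {n : ℕ}
    (h : ∀ (A : Type) [CommRing A] [Algebra R A] [Algebra.FiniteType R A], ringKrullDim A ≤ n → P (aff R A))
    (A : Type) [CommRing A] [Algebra R A] [Algebra.FiniteType R A] {s r : ℕ} (hs : ringKrullDim A ≤ s)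
    (hA : s + r ≤ n ∨ (s + r ≤ n + 1 ∧ IsDomain A ∧ P (aff R A))) {V W J L : Type}
    [Fintype V] [Fintype W] [Fintype J] [Finite L] (b : J → Option V → A) (c : L → Option W → A)
    (B : Fin (r + 1) → Option V → Option W → A) :
    P (aff R (Sys A (V ⊕ W) (((Set.range fun j => lp Sum.inl (b j)) ∪ (Set.range fun l => lp Sum.inr (c l))) ∪
      Set.range fun i => bq (B i)))) := by
  have hNA : IsNoetherianRing A := Algebra.FiniteType.isNoetherianRing R A
  refine bil_all hP (kk_cls hP h) (fun A _ _ _ hA => kk_prop h A hA) A ?_ ?_ b c B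
  · rcases hA with h1 | ⟨h1, h2, h3⟩
    · exact Or.inl (hs.trans (by exact_mod_cast (by omega : s ≤ n)))
    · exact Or.inr ⟨h2, hs.trans (by exact_mod_cast (by omega : s ≤ n + 1)), h3⟩
  · intro κ _ hκ
    have hd : ∀ m : ℕ, s + r ≤ m → ringKrullDim (MvPolynomial κ A) ≤ m := by
      intro m hm
      rw [MvPolynomial.ringKrullDim_of_isNoetherianRing, Nat.card_eq_fintype_card]
      refine (add_le_add hs (show ((Fintype.card κ : ℕ) : WithBot ℕ∞) ≤ (r : ℕ) from ?_)).trans ?_
      · exact_mod_cast hκ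
      · exact_mod_cast hm
    rcases hA with h1 | ⟨h1, h2, h3⟩
    · exact Or.inl (hd n h1)
    · exact Or.inr ⟨inferInstance, hd (n + 1) h1, p_poly hP κ h3⟩

end

end Pool.Agent.W5h28.BL
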