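import Pool.Agent.W5h28.BL.Hyp
import Pool.Agent.W5h93.QD.Quad

/-!
# Exchange of the multipliers and of a block of variables
-/

set_option autoImplicit false

open MvPolynomial Pool.Agent.W5h93.QD

namespace Pool.Agent.W5h28.BL

/-- the polynomial of degree at most one with the constant term `c none` and the coefficients `c (some w)`,
in the variables `i w` -/
noncomputable def lp {A W σ : Type} [CommRing A] [Fintype W] (i : W → σ) (c : Option W → A) :
    MvPolynomial σ A :=
  ∑ p : Option W, C (c p) * p.elim 1 fun w => X (i w)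

/-- the polynomial of bidegree at most `(1, 1)` with the coefficients `B` -/
noncomputable def bq {A V W : Type} [CommRing A] [Fintype V] [Fintype W] (B : Option V → Option W → A) :
    MvPolynomial (V ⊕ W) A :=
  ∑ o : Option V, ∑ p : Option W, C (B o p) * (o.elim 1 fun v => X (Sum.inl v)) *
    (p.elim 1 fun w => X (Sum.inr w))

section val

variable {R : Type} [CommRing R] {A : Type} [CommRing A] [Algebra R A] {S : Type} [CommRing S]
  [Algebra R S]

lemma map_elim {T : Type} [CommRing T] {ι F : Type} [FunLike F S T] [RingHomClass F S T] (φ : F)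
    (o : Option ι) (x : ι → S) : φ (o.elim 1 x) = o.elim 1 fun i => φ (x i) := by
  rcases o with _ | i
  · exact map_one φ
  · rfl

lemma lp_val {W σ : Type} [Fintype W] (i : W → σ) (c : Option W → A) (f : A →ₐ[R] S) (x : σ → S) :
    aevalTower f x (lp i c) = ∑ p : Option W, f (c p) * p.elim 1 fun w => x (i w) := by
  rw [lp, map_sum]
  refine Finset.sum_congr rfl fun p _ => ?_
  rw [map_mul, aevalTower_C, map_elim]
  simp only [aevalTower_X]

lemma bq_val {V W : Type} [Fintype V] [Fintype W] (B : Option V → Option W → A) (f : A →ₐ[R] S)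
    (x : V ⊕ W → S) : aevalTower f x (bq B) = ∑ o : Option V, ∑ p : Option W, f (B o p) *
      (o.elim 1 fun v => x (Sum.inl v)) * (p.elim 1 fun w => x (Sum.inr w)) := by
  rw [bq, map_sum]
  refine Finset.sum_congr rfl fun o _ => ?_
  rw [map_sum]
  refine Finset.sum_congr rfl fun p _ => ?_
  rw [map_mul, map_mul, aevalTower_C, map_elim, map_elim]
  simp only [aevalTower_X]

lemma ff_val {κ : Type} [Fintype κ] (a : Option κ → A) (f : A →ₐ[R] S) (x : κ → S) :
    aevalTower f x (ff a) = ∑ o : Option κ, f (a o) * o.elim 1 x := by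
  rw [ff, map_add, map_sum, Fintype.sum_option, aevalTower_C]
  congr 1
  · exact (mul_one _).symm
  · refine Finset.sum_congr rfl fun l _ => ?_
    rw [map_mul, aevalTower_C, aevalTower_X]
    rfl

lemma swap_id {V W J : Type} [Fintype V] [Fintype W] [Fintype J] (β : Option V → Option W → S)
    (δ : J → Option V → S) (y : Option V → S) (z : Option W → S) (l : J → S) :
    ∑ o, ∑ p, β o p * y o * z p + ∑ j, (∑ o, δ j o * y o) * l j =
      ∑ o, (∑ p, β o p * z p + ∑ j, δ j o * l j) * y o := by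
  have h1 : ∑ j, (∑ o, δ j o * y o) * l j = ∑ o, ∑ j, δ j o * l j * y o := by
    rw [Finset.sum_comm]
    refine Finset.sum_congr rfl fun j _ => ?_
    rw [Finset.sum_mul]
    exact Finset.sum_congr rfl fun o _ => by ring
  rw [h1, ← Finset.sum_add_distrib]
  refine Finset.sum_congr rfl fun o _ => ?_
  rw [add_mul, Finset.sum_mul, Finset.sum_mul]
  congr 1
  exact Finset.sum_congr rfl fun p _ => by ring

end val

section swap

variable {R : Type} [CommRing R] {A : Type} [CommRing A] [Algebra R A] {V W J L : Type}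
  [Fintype V] [Fintype W] [Fintype J] (b : J → Option V → A) (c : L → Option W → A)
  (B : Option V → Option W → A)

/-- the equations which are linear in the second block -/
abbrev G0 (V : Type) (c : L → Option W → A) : Set (MvPolynomial (V ⊕ W) A) :=
  Set.range fun l => lp Sum.inr (c l)

/-- the equations which are linear in the second block, without the first block -/
abbrev G1 (J : Type) (c : L → Option W → A) : Set (MvPolynomial (W ⊕ J) A) :=
  Set.range fun l => lp Sum.inl (c l)

/-- the other equations -/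
noncomputable abbrev pF : Option J → MvPolynomial (V ⊕ W) A :=
  fun o => o.elim (bq B) fun j => lp Sum.inl (b j)

/-- the coefficients of the first block -/
noncomputable def pG (o : Option V) : MvPolynomial (W ⊕ J) A :=
  lp Sum.inl (B o) + ∑ j, C (b j o) * X (Sum.inr j)

/-- the other equations -/
noncomputable abbrev cF (o : Option J) : Sys A (V ⊕ W) (G0 V c) :=
  Ideal.Quotient.mk (Ideal.span (G0 V c)) (pF b B o)

/-- the coefficients of the first block -/
noncomputable abbrev cG (o : Option V) : Sys A (W ⊕ J) (G1 J c) :=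
  Ideal.Quotient.mk (Ideal.span (G1 J c)) (pG b B o)

variable {S : Type} [CommRing S] [Algebra R S]

lemma pG_val (o : Option V) (f : A →ₐ[R] S) (x : W ⊕ J → S) : aevalTower f x (pG b B o) =
    ∑ p : Option W, f (B o p) * (p.elim 1 fun w => x (Sum.inl w)) +
      ∑ j, f (b j o) * x (Sum.inr j) := by
  rw [pG, map_add, lp_val, map_sum]
  congr 1
  refine Finset.sum_congr rfl fun j _ => ?_
  rw [map_mul, aevalTower_C, aevalTower_X]

/-- maps from the first system -/
lemma swap_F (f : A →ₐ[R] S) (x : V ⊕ W → S) (h0 : ∀ g ∈ G0 V c, aevalTower f x g = 0) (l : J → S) :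
    aevalTower (liftS f x h0) l (ff (cF b c B)) =
      ∑ o, ∑ p, f (B o p) * (o.elim 1 fun v => x (Sum.inl v)) * (p.elim 1 fun w => x (Sum.inr w)) +
        ∑ j, (∑ o, f (b j o) * (o.elim 1 fun v => x (Sum.inl v))) * l j := by
  rw [ff_val, Fintype.sum_option]
  congr 1
  · rw [cF, liftS_mk]
    change aevalTower f x (bq B) * 1 = _
    rw [mul_one, bq_val]
  · refine Finset.sum_congr rfl fun j _ => ?_
    rw [cF, liftS_mk]
    change aevalTower f x (lp Sum.inl (b j)) * l j = _
    rw [lp_val]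

/-- maps from the second system -/
lemma swap_G (f : A →ₐ[R] S) (x : W ⊕ J → S) (h0 : ∀ g ∈ G1 J c, aevalTower f x g = 0) (y : V → S) :
    aevalTower (liftS f x h0) y (ff (cG b c B)) =
      ∑ o, (∑ p, f (B o p) * (p.elim 1 fun w => x (Sum.inl w)) + ∑ j, f (b j o) * x (Sum.inr j)) *
        (o.elim 1 y) := by
  rw [ff_val]
  refine Finset.sum_congr rfl fun o _ => ?_
  rw [cG, liftS_mk, pG_val]

/-- the equations of the second block vanish -/
lemma g0_h (f : A →ₐ[R] S) (x : V ⊕ W → S) (y : W ⊕ J → S) (hxy : ∀ w, x (Sum.inr w) = y (Sum.inl w)) :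
    (∀ g ∈ G0 V c, aevalTower f x g = 0) ↔ (∀ g ∈ G1 J c, aevalTower f y g = 0) := by
  have h : ∀ l, aevalTower f x (lp Sum.inr (c l)) = aevalTower f y (lp Sum.inl (c l)) := by
    intro l
    rw [lp_val, lp_val]
    simp only [hxy]
  constructor
  · rintro h1 _ ⟨l, rfl⟩
    change aevalTower f y (lp Sum.inl (c l)) = 0
    rw [← h]
    exact h1 _ ⟨l, rfl⟩
  · rintro h1 _ ⟨l, rfl⟩
    change aevalTower f x (lp Sum.inr (c l)) = 0
    rw [h]
    exact h1 _ ⟨l, rfl⟩

lemma compLift {U : Type} {G : Set (MvPolynomial U A)} (φ : Sys A U G →ₐ[R] S) (g : MvPolynomial U A)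
    (hg : g ∈ G) : aevalTower (φ.comp (cS R G)) (fun u => φ (xS G u)) g = 0 := by
  rw [← map_tower, aeval_xS, mk_zero hg, map_zero]

lemma liftS_comp {U : Type} {G : Set (MvPolynomial U A)} (φ : Sys A U G →ₐ[R] S) :
    liftS (φ.comp (cS R G)) (fun u => φ (xS G u)) (compLift φ) = φ := by
  apply extS
  · intro a
    rw [liftS_c]
    rfl
  · intro v
    rw [liftS_x]

variable (R)

/-- the constants of `swA` -/
lemma swA0_h : ∀ g ∈ G0 V c, aevalTower ((cS R {ff (cG b c B)}).comp (cS R (G1 J c)))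
    (Sum.elim (xS {ff (cG b c B)}) fun w => cS R {ff (cG b c B)} (xS (G1 J c) (Sum.inl w))) g = 0 := by
  refine (g0_h c _ _ (fun u => cS R {ff (cG b c B)} (xS (G1 J c) u)) (fun w => rfl)).2 ?_
  exact compLift _

/-- the constants of `swA` -/
noncomputable def swA0 : Sys A (V ⊕ W) (G0 V c) →ₐ[R] Sys (Sys A (W ⊕ J) (G1 J c)) V {ff (cG b c B)} :=
  liftS _ _ (swA0_h R b c B)

lemma swA_h : ∀ g ∈ ({ff (cF b c B)} : Set (MvPolynomial J (Sys A (V ⊕ W) (G0 V c)))),
    aevalTower (swA0 R b c B) (fun j => cS R {ff (cG b c B)} (xS (G1 J c) (Sum.inr j))) g = 0 := by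
  intro g hg
  rw [Set.mem_singleton_iff.mp hg, swA0, swap_F, swap_id]
  have h1 := aeval_xS (R := R) (G := {ff (cG b c B)}) (ff (cG b c B))
  rw [mk_zero (Set.mem_singleton _), ← liftS_comp (cS R {ff (cG b c B)}), swap_G] at h1
  exact h1

/-- from the multipliers to the first block -/
noncomputable def swA : Sys (Sys A (V ⊕ W) (G0 V c)) J {ff (cF b c B)} →ₐ[R]
    Sys (Sys A (W ⊕ J) (G1 J c)) V {ff (cG b c B)} :=
  liftS (swA0 R b c B) _ (swA_h R b c B)

/-- the constants of `swB` -/
lemma swB0_h : ∀ g ∈ G1 J c, aevalTower ((cS R {ff (cF b c B)}).comp (cS R (G0 V c)))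
    (Sum.elim (fun w => cS R {ff (cF b c B)} (xS (G0 V c) (Sum.inr w))) (xS {ff (cF b c B)})) g = 0 := by
  refine (g0_h c _ (fun u => cS R {ff (cF b c B)} (xS (G0 V c) u)) _ (fun w => rfl)).1 ?_
  exact compLift _

/-- the constants of `swB` -/
noncomputable def swB0 : Sys A (W ⊕ J) (G1 J c) →ₐ[R] Sys (Sys A (V ⊕ W) (G0 V c)) J {ff (cF b c B)} :=
  liftS _ _ (swB0_h R b c B)

lemma swB_h : ∀ g ∈ ({ff (cG b c B)} : Set (MvPolynomial V (Sys A (W ⊕ J) (G1 J c)))),
    aevalTower (swB0 R b c B) (fun v => cS R {ff (cF b c B)} (xS (G0 V c) (Sum.inl v))) g = 0 := by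
  intro g hg
  rw [Set.mem_singleton_iff.mp hg, swB0, swap_G]
  have h1 := aeval_xS (R := R) (G := {ff (cF b c B)}) (ff (cF b c B))
  rw [mk_zero (Set.mem_singleton _), ← liftS_comp (cS R {ff (cF b c B)}), swap_F, swap_id] at h1
  exact h1

/-- from the first block to the multipliers -/
noncomputable def swB : Sys (Sys A (W ⊕ J) (G1 J c)) V {ff (cG b c B)} →ₐ[R]
    Sys (Sys A (V ⊕ W) (G0 V c)) J {ff (cF b c B)} :=
  liftS (swB0 R b c B) _ (swB_h R b c B)

lemma swA_c (e : Sys A (V ⊕ W) (G0 V c)) : swA R b c B (cS R _ e) = swA0 R b c B e := liftS_c _ _ _ _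

lemma swA_x (j : J) : swA R b c B (xS _ j) = cS R _ (xS _ (Sum.inr j)) := liftS_x _ _ _ _

lemma swA0_c (a : A) : swA0 R b c B (cS R _ a) = cS R _ (cS R _ a) := liftS_c _ _ _ _

lemma swA0_l (v : V) : swA0 R b c B (xS _ (Sum.inl v)) = xS _ v := liftS_x _ _ _ _

lemma swA0_r (w : W) : swA0 R b c B (xS _ (Sum.inr w)) = cS R _ (xS _ (Sum.inl w)) := liftS_x _ _ _ _

lemma swB_c (e : Sys A (W ⊕ J) (G1 J c)) : swB R b c B (cS R _ e) = swB0 R b c B e := liftS_c _ _ _ _

lemma swB_x (v : V) : swB R b c B (xS _ v) = cS R _ (xS _ (Sum.inl v)) := liftS_x _ _ _ _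

lemma swB0_c (a : A) : swB0 R b c B (cS R _ a) = cS R _ (cS R _ a) := liftS_c _ _ _ _

lemma swB0_l (w : W) : swB0 R b c B (xS _ (Sum.inl w)) = cS R _ (xS _ (Sum.inr w)) := liftS_x _ _ _ _

lemma swB0_r (j : J) : swB0 R b c B (xS _ (Sum.inr j)) = xS _ j := liftS_x _ _ _ _

/-- exchange of the multipliers and of the first block -/
noncomputable def swE : Sys (Sys A (V ⊕ W) (G0 V c)) J {ff (cF b c B)} ≃ₐ[R]
    Sys (Sys A (W ⊕ J) (G1 J c)) V {ff (cG b c B)} := by
  refine AlgEquiv.ofAlgHom (swA R b c B) (swB R b c B) ?_ ?_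
  · apply extS
    · intro e
      have h : ((swA R b c B).comp (swB R b c B)).comp (cS R _) = cS R _ := by
        apply extS
        · intro a
          rw [AlgHom.comp_apply, AlgHom.comp_apply, swB_c, swB0_c, swA_c, swA0_c]
        · rintro (w | j)
          · rw [AlgHom.comp_apply, AlgHom.comp_apply, swB_c, swB0_l, swA_c, swA0_r]
          · rw [AlgHom.comp_apply, AlgHom.comp_apply, swB_c, swB0_r, swA_x]
      exact DFunLike.congr_fun h e
    · intro v
      rw [AlgHom.comp_apply, swB_x, swA_c, swA0_l]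
      rfl
  · apply extS
    · intro e
      have h : ((swB R b c B).comp (swA R b c B)).comp (cS R _) = cS R _ := by
        apply extS
        · intro a
          rw [AlgHom.comp_apply, AlgHom.comp_apply, swA_c, swA0_c, swB_c, swB0_c]
        · rintro (v | w)
          · rw [AlgHom.comp_apply, AlgHom.comp_apply, swA_c, swA0_l, swB_x]
          · rw [AlgHom.comp_apply, AlgHom.comp_apply, swA_c, swA0_r, swB_c, swB0_l]
      exact DFunLike.congr_fun h e
    · intro j
      rw [AlgHom.comp_apply, swA_x, swB_c, swB0_r]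
      rfl

end swap

end Pool.Agent.W5h28.BL
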